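import Pool.Agent.helper77.BND.SpecB

set_option autoImplicit false

open scoped Topology Matrix
open Filter Finset

namespace Pool.Agent.BND

open Pool.Agent.CZ Pool.Agent.PV

theorem BXS_down (hSTE : STE_stmt) (B : BS) (M : ℕ → ℕ → ℕ → ℕ) (hB : IsBS B M) (x : ↥(XS B)) :
    ∀ (m e : ℕ) (s : ℝ), e < (B.L m).N → s ∈ U → x.1 m = emb (B.L m) e s 0 → ∀ k, k < m → x.1 k = bt (B.L k) := by
  intro m
  induction m with
  | zero => intro e s _ _ _ k hk; omega
  | succ m ih =>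
    intro e s he hs hx k hk
    have h1 : x.1 m = bt (B.L m) := by
      rw [(x.2 m).2 e s 0 he hs ((hB.lv (m + 1)).pos e he) hx]
      exact ((hSTE B M hB m).2.2 e s he hs).1
    rcases Nat.lt_succ_iff_lt_or_eq.mp hk with h | h
    · exact ih 0 0 (lt_of_lt_of_le (hB.lv m).n0 (hB.lv m).nN) (by simp) h1 k h
    · subst h
      exact h1

theorem BXS (hPMA : PMA_stmt) (hSTE : STE_stmt) (_hHOM : HOM_stmt) : BXS_stmt := by
  intro B M _ α hB _ hAI
  obtain ⟨p, _, _, hp, _, _⟩ := hPMA B M hB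
  have h0N : ∀ m, 0 < (B.L m).N := fun m => lt_of_lt_of_le (hB.lv m).n0 (hB.lv m).nN
  have h0U : (0 : ℝ) ∈ U := by simp
  have hbt : ∀ m, p m (bt (B.L (m + 1))) = bt (B.L m) := by
    intro m
    have h1 := hp.val m 0 0 0 (h0N (m + 1)) h0U ((hB.lv (m + 1)).pos 0 (h0N (m + 1)))
    rw [((hSTE B M hB m).2.2 0 0 (h0N (m + 1)) h0U).1] at h1
    exact h1
  have hmem : (fun m => bt (B.L m)) ∈ XS B := by
    intro m
    refine ⟨(hSTE B M hB m).1, ?_⟩
    intro e s i he hs hi h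
    have h1 := hp.val m e s i he hs hi
    rw [← h1]
    have h' : bt (B.L (m + 1)) = emb (B.L (m + 1)) e s i := h
    rw [← h', hbt]
  refine ⟨⟨_, hmem⟩, fun _ => rfl, ?_, ?_⟩
  · intro he
    have h1 := hAI ⟨_, hmem⟩ 1 0 0 0 (h0N 2) h0U ((hB.lv 2).pos 0 (h0N 2)) rfl
    rw [← he] at h1
    have h2 : bt (B.L 1) = tp (B.L 1) := by
      have h3 : B.dn 1 0 0 0 = tp (B.L 1) := by
        unfold BS.dn
        rw [if_pos rfl]
      rw [← h3, ← h1]
    have hh : 2 ≤ (B.L 1).h 0 := hB.big 1 0 (h0N 1)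
    unfold bt tp emb at h2
    rw [if_pos (hB.lv 1).n0, if_pos (hB.lv 1).n0] at h2
    have h3 := congrFun h2 (0, 0)
    rw [Pi.single_eq_same, Pi.single_eq_of_ne] at h3
    · exact one_ne_zero h3
    · intro e
      have := congrArg Prod.snd e
      simp only at this
      omega
  · intro W hW
    rw [nhds_subtype_eq_comap, Filter.mem_comap] at hW
    obtain ⟨T, hT, hTW⟩ := hW
    rw [nhds_pi, Filter.mem_pi] at hT
    obtain ⟨I, hI, t, ht, hIT⟩ := hT
    refine ⟨hI.toFinset.sup id + 1, ?_⟩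
    intro m hm x e s he hs hx
    apply hTW
    apply hIT
    intro k hk
    have hkm : k < m := by
      have : k ≤ hI.toFinset.sup id := Finset.le_sup (f := id) (hI.mem_toFinset.mpr hk)
      omega
    rw [BXS_down hSTE B M hB x m e s he hs hx k hkm]
    exact mem_of_mem_nhds (ht k)

end Pool.Agent.BND
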