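import Pool.Agent.helper77.BND.SpecF

/-!
# Project bnd (MP_376aaf_an), row FK0
-/

set_option autoImplicit false

open scoped Topology Matrix
open Filter Finset

namespace Pool.Agent.BND

open Pool.Agent.CZ Pool.Agent.PV Pool.Agent.PVH

theorem FK0 (hFDN : FDN_stmt) (hSGK : SGK_stmt) (hHEX : HEX_stmt) (hFSY : FSY_stmt) (hFLK : FLK_stmt) (hKHI : KHI_stmt) :
    FK0_stmt := by
  intro E _ _ _ _ _ _ _ K _ hKc hKx hKne hKs H _ _ ρ g haff hone htf
  obtain ⟨H₂, i1, i2, ρ₂, j, hKD, hjinj, hjρ, hpure, htf2⟩ := hFDN E K hKc hKx hKne H ρ g haff hone htf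
  have hS : SOG (KP K ρ₂) (j g) := hSGK E K hKs H₂ ρ₂ (j g) hKD htf2
  have hgr : j g ∈ j.range := ⟨g, rfl⟩
  obtain ⟨B, M, th, hB, hTh, hG⟩ := hHEX H₂ (KP K ρ₂) (j g) hS j.range hgr hpure
  obtain ⟨c1, m1, f1, α, hmin, hSB, A, a1, ι, u, c, hcp, hCPr, hinv⟩ :=
    hFSY E K H₂ ρ₂ (j g) hKD hS B M th j.range hB hTh hgr
  refine ⟨↥(XS B), inferInstance, c1, m1, f1, α, hmin, hSB, A, a1, ι, u, hcp, ?_, ?_⟩
  · let f : H ≃+ j.range := AddMonoidHom.ofInjective hjinj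
    have hf : ∀ x, ((f x : j.range) : H₂) = j x := fun x => rfl
    have h := hKHI A j.range ⟨j g, hgr⟩ (K1 A) E K (ρ₂.comp j.range.subtype) hinv H (K1 A) f.symm (AddEquiv.refl _) ρ
      (by
        intro x
        have h1 : j (f.symm x) = x := by
          rw [← hf, AddEquiv.apply_symm_apply]
        rw [← hjρ, h1]
        rfl)
    have h2 : f.symm ⟨j g, hgr⟩ = g := by
      rw [AddEquiv.symm_apply_eq]
      rfl
    rw [h2] at h
    exact h
  · intro hrk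
    have hr1 : RkOne j.range := by
      rintro _ ⟨x, rfl⟩ _ ⟨y, rfl⟩
      obtain ⟨a, b, hab, e⟩ := hrk x y
      exact ⟨a, b, hab, by rw [← map_zsmul, ← map_zsmul, e]⟩
    obtain ⟨G, hG1⟩ := hG hr1
    exact hFLK H₂ (KP K ρ₂) (j g) B M th j.range hTh G hG1 α A ι u c hCPr

end Pool.Agent.BND
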